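import Pool.Agent.H37.CNK.Stmts

/-!
# Row WCA of the board cnk
-/

set_option autoImplicit false

namespace Pool.CND

open Finset

/-- `wc` over a commutative ring -/
def wcR (p : ℕ) {R : Type*} [CommRing R] (a b : R) : R :=
  -∑ i ∈ Ico 1 p, ((p.choose i / p : ℕ) : R) * a ^ i * b ^ (p - i)

theorem wc_eq_wcR (p : ℕ) {L : Type} [Field L] (a b : L) : wc p a b = wcR p a b := rfl

theorem wcR_map (p : ℕ) {R S : Type*} [CommRing R] [CommRing S] (f : R →+* S) (a b : R) :
    f (wcR p a b) = wcR p (f a) (f b) := by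
  unfold wcR
  rw [map_neg, map_sum]
  congr 1
  refine Finset.sum_congr rfl fun i _ => ?_
  rw [map_mul, map_mul, map_pow, map_pow, map_natCast]

theorem wcR_mul (p : ℕ) (hp : p.Prime) {R : Type*} [CommRing R] (a b : R) :
    (p : R) * wcR p a b = a ^ p + b ^ p - (a + b) ^ p := by
  unfold wcR
  have h1 : (a + b) ^ p = ∑ i ∈ range (p + 1), a ^ i * b ^ (p - i) * (p.choose i : R) := add_pow a b p
  have h2 : ∑ i ∈ range (p + 1), a ^ i * b ^ (p - i) * (p.choose i : R) =
      b ^ p + ∑ i ∈ Ico 1 p, a ^ i * b ^ (p - i) * (p.choose i : R) + a ^ p := by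
    rw [Finset.sum_range_succ, Finset.range_eq_Ico, Finset.sum_eq_sum_Ico_succ_bot hp.pos]
    simp
  rw [h1, h2, mul_neg, Finset.mul_sum]
  have h3 : ∑ i ∈ Ico 1 p, (p : R) * (((p.choose i / p : ℕ) : R) * a ^ i * b ^ (p - i)) =
      ∑ i ∈ Ico 1 p, a ^ i * b ^ (p - i) * (p.choose i : R) := by
    refine Finset.sum_congr rfl fun i hi => ?_
    rw [Finset.mem_Ico] at hi
    have hd : p ∣ p.choose i := hp.dvd_choose_self (by omega) hi.2
    have he : ((p.choose i : ℕ) : R) = (p : R) * ((p.choose i / p : ℕ) : R) := by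
      rw [← Nat.cast_mul, Nat.mul_div_cancel' hd]
    rw [he]; ring
  rw [h3]; ring

theorem natCast_pow_char' (p : ℕ) (hp : p.Prime) {L : Type*} [Field L] [CharP L p] (c : ℕ) :
    ((c : ℕ) : L) ^ p = (c : L) := by
  have : Fact p.Prime := ⟨hp⟩
  have h : ((c : ZMod p)) ^ p = (c : ZMod p) := ZMod.pow_card _
  have h2 := congrArg (ZMod.castHom (dvd_refl p) L) h
  rw [map_pow, map_natCast] at h2
  exact h2

theorem wcR_frob (p : ℕ) (hp : p.Prime) {L : Type*} [Field L] [CharP L p] (y : L) :
    (wcR p y 1) ^ p = wcR p (y ^ p) 1 := by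
  have : Fact p.Prime := ⟨hp⟩
  have : ExpChar L p := ExpChar.prime hp
  have h := map_neg (frobenius L p) (∑ i ∈ Ico 1 p, ((p.choose i / p : ℕ) : L) * y ^ i * 1 ^ (p - i))
  rw [frobenius_def] at h
  unfold wcR
  rw [h, map_sum]
  congr 1
  refine Finset.sum_congr rfl fun i _ => ?_
  rw [frobenius_def, mul_pow, mul_pow, natCast_pow_char' p hp, one_pow, one_pow, ← pow_mul, ← pow_mul,
    mul_comm i p]

theorem der_natCast {L : Type*} [Field L] (Δ : L → L) (ha : ∀ x y : L, Δ (x + y) = Δ x + Δ y)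
    (hm : ∀ x y : L, Δ (x * y) = x * Δ y + y * Δ x) (n : ℕ) : Δ (n : L) = 0 := by
  have h1 : Δ 1 = 0 := by
    have h := hm 1 1
    rw [mul_one, one_mul] at h
    linear_combination -h
  have h0 : Δ 0 = 0 := by
    have h := ha 0 0
    rw [add_zero] at h
    linear_combination -h
  induction n with
  | zero => rw [Nat.cast_zero, h0]
  | succ n ih => rw [Nat.cast_succ, ha, ih, h1, add_zero]

theorem der_pow {L : Type*} [Field L] (Δ : L → L) (ha : ∀ x y : L, Δ (x + y) = Δ x + Δ y)
    (hm : ∀ x y : L, Δ (x * y) = x * Δ y + y * Δ x) (a : L) (n : ℕ) :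
    Δ (a ^ n) = (n : L) * a ^ (n - 1) * Δ a := by
  induction n with
  | zero =>
    have h := der_natCast Δ ha hm 1
    rw [Nat.cast_one] at h
    rw [pow_zero, h]; simp
  | succ n ih =>
    rw [pow_succ, hm, ih, Nat.cast_succ, Nat.add_sub_cancel]
    rcases n with _ | n
    · simp
    · rw [Nat.add_sub_cancel]; ring

theorem der_sum {L : Type*} [Field L] (Δ : L → L) (ha : ∀ x y : L, Δ (x + y) = Δ x + Δ y)
    (s : Finset ℕ) (f : ℕ → L) : Δ (∑ i ∈ s, f i) = ∑ i ∈ s, Δ (f i) := by
  let F : L →+ L := AddMonoidHom.mk' Δ ha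
  exact map_sum F f s

theorem wca_thm : S_WCA := by
  intro p L _ _ hp
  have hp0 : (p : L) = 0 := CharP.cast_eq_zero L p
  have hpZ : ((p : ℕ) : Polynomial ℤ) ≠ 0 := by
    rw [Ne, Nat.cast_eq_zero]; exact hp.ne_zero
  refine ⟨fun y => ?_, fun y => ?_, fun Δ ha hm a b => ?_⟩
  · have key : wcR p (Polynomial.X + 1) (Polynomial.X ^ p - Polynomial.X) -
        wcR p (Polynomial.X : Polynomial ℤ) (Polynomial.X ^ p - Polynomial.X) =
        wcR p (Polynomial.X ^ p : Polynomial ℤ) 1 - wcR p Polynomial.X 1 := by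
      apply mul_left_cancel₀ hpZ
      rw [mul_sub, mul_sub, wcR_mul p hp, wcR_mul p hp, wcR_mul p hp, wcR_mul p hp]
      have e1 : (Polynomial.X + 1 + (Polynomial.X ^ p - Polynomial.X) : Polynomial ℤ) =
        Polynomial.X ^ p + 1 := by ring
      have e2 : (Polynomial.X + (Polynomial.X ^ p - Polynomial.X) : Polynomial ℤ) =
        Polynomial.X ^ p := by ring
      rw [e1, e2]; ring
    have h := congrArg (Polynomial.eval₂RingHom (Int.castRingHom L) y) key
    rw [map_sub, map_sub, wcR_map, wcR_map, wcR_map, wcR_map] at h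
    simp only [map_add, map_sub, map_pow, map_one, Polynomial.coe_eval₂RingHom,
      Polynomial.eval₂_X] at h
    rw [wc_eq_wcR, wc_eq_wcR, wc_eq_wcR, wcR_frob p hp, h]
  · have key : ∑ l ∈ range p, wcR p (Polynomial.X + (l : Polynomial ℤ)) 1 =
        1 - (p : Polynomial ℤ) ^ (p - 1) + wcR p (Polynomial.X : Polynomial ℤ) p := by
      apply mul_left_cancel₀ hpZ
      rw [Finset.mul_sum, mul_add, wcR_mul p hp, mul_sub, ← pow_succ', Nat.sub_add_cancel hp.one_le]
      have h : ∀ n : ℕ, ∑ l ∈ range n, (p : Polynomial ℤ) * wcR p (Polynomial.X + (l : Polynomial ℤ)) 1 =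
          (Polynomial.X : Polynomial ℤ) ^ p + (n : Polynomial ℤ) - (Polynomial.X + (n : Polynomial ℤ)) ^ p := by
        intro n
        induction n with
        | zero => simp
        | succ n ih =>
          rw [Finset.sum_range_succ, ih, wcR_mul p hp, one_pow, Nat.cast_succ, ← add_assoc]
          ring
      rw [h]; ring
    have h := congrArg (Polynomial.eval₂RingHom (Int.castRingHom L) y) key
    rw [map_sum, map_add, wcR_map, map_sub, map_pow, map_natCast, map_one, hp0] at h
    have h2 : ∀ l : ℕ, (Polynomial.eval₂RingHom (Int.castRingHom L) y)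
        (wcR p (Polynomial.X + (l : Polynomial ℤ)) 1) = wc p (y + (l : L)) 1 := by
      intro l
      rw [wcR_map, map_add, map_natCast, map_one, wc_eq_wcR]
      simp
    rw [Finset.sum_congr rfl fun l _ => h2 l] at h
    rw [h, zero_pow (by have := hp.two_le; omega)]
    have h3 : wcR p ((Polynomial.eval₂RingHom (Int.castRingHom L) y) Polynomial.X) (0 : L) = 0 := by
      unfold wcR
      rw [Finset.sum_eq_zero, neg_zero]
      intro i hi
      rw [Finset.mem_Ico] at hi
      rw [zero_pow (by omega), mul_zero]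
    rw [h3]; ring
  · have hterm : ∀ i ∈ Ico 1 p, Δ (((p.choose i / p : ℕ) : L) * a ^ i * b ^ (p - i)) =
        (((p - 1).choose (i - 1) : ℕ) : L) * a ^ (i - 1) * b ^ (p - i) * Δ a +
        (((p - 1).choose i : ℕ) : L) * a ^ i * b ^ (p - 1 - i) * Δ b := by
      intro i hi
      rw [Finset.mem_Ico] at hi
      have hd : p ∣ p.choose i := hp.dvd_choose_self (by omega) hi.2
      obtain ⟨c, hc⟩ := hd
      have hcp : p.choose i / p = c := by rw [hc]; exact Nat.mul_div_cancel_left _ hp.pos
      have h1 : c * i = (p - 1).choose (i - 1) := by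
        have h := Nat.add_one_mul_choose_eq (p - 1) (i - 1)
        rw [Nat.sub_add_cancel hp.one_le, Nat.sub_add_cancel hi.1, hc] at h
        have : p * ((p - 1).choose (i - 1)) = p * (c * i) := by rw [h]; ring
        exact (Nat.eq_of_mul_eq_mul_left hp.pos this).symm
      have h2 : c * (p - i) = (p - 1).choose i := by
        have h := Nat.add_one_mul_choose_eq (p - 1) (p - i - 1)
        rw [Nat.sub_add_cancel hp.one_le, (by omega : p - i - 1 + 1 = p - i),
          Nat.choose_symm (by omega : i ≤ p), hc] at h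
        have e3 : (p - 1).choose (p - i - 1) = (p - 1).choose i := by
          have : p - i - 1 = (p - 1) - i := by omega
          rw [this, Nat.choose_symm (by omega : i ≤ p - 1)]
        rw [e3] at h
        have : p * ((p - 1).choose i) = p * (c * (p - i)) := by rw [h]; ring
        exact (Nat.eq_of_mul_eq_mul_left hp.pos this).symm
      rw [hcp, hm, hm, der_natCast Δ ha hm, der_pow Δ ha hm, der_pow Δ ha hm, ← h1, ← h2]
      have e4 : p - i - 1 = p - 1 - i := by omega
      rw [e4]
      push_cast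
      ring
    have hs1 : ∑ i ∈ Ico 1 p, (((p - 1).choose (i - 1) : ℕ) : L) * a ^ (i - 1) * b ^ (p - i) =
        (a + b) ^ (p - 1) - a ^ (p - 1) := by
      obtain ⟨m, rfl⟩ : ∃ m, p = m + 1 := ⟨p - 1, by have := hp.one_le; omega⟩
      rw [add_pow, Nat.add_sub_cancel, Finset.sum_range_succ, Finset.sum_Ico_eq_sum_range,
        Nat.add_sub_cancel]
      simp only [Nat.choose_self, Nat.sub_self, pow_zero, Nat.cast_one, mul_one, add_sub_cancel_right]
      refine Finset.sum_congr rfl fun i _ => ?_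
      rw [Nat.add_sub_cancel_left, (by omega : m + 1 - (1 + i) = m - i)]
      ring
    have hs2 : ∑ i ∈ Ico 1 p, (((p - 1).choose i : ℕ) : L) * a ^ i * b ^ (p - 1 - i) =
        (a + b) ^ (p - 1) - b ^ (p - 1) := by
      obtain ⟨m, rfl⟩ : ∃ m, p = m + 1 := ⟨p - 1, by have := hp.one_le; omega⟩
      rw [add_pow, Nat.add_sub_cancel, Finset.sum_range_succ', Finset.sum_Ico_eq_sum_range,
        Nat.add_sub_cancel]
      simp only [Nat.choose_zero_right, Nat.sub_zero, pow_zero, Nat.cast_one, mul_one, one_mul,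
        add_sub_cancel_right]
      refine Finset.sum_congr rfl fun i _ => ?_
      rw [add_comm 1 i]
      ring
    have hneg : ∀ x : L, Δ (-x) = -Δ x := by
      intro x
      have h := ha x (-x)
      have h0 : Δ 0 = 0 := by
        have h := der_natCast Δ ha hm 0
        rwa [Nat.cast_zero] at h
      rw [add_neg_cancel, h0] at h
      linear_combination -h
    unfold wc
    rw [hneg, der_sum Δ ha, Finset.sum_congr rfl hterm, Finset.sum_add_distrib, ← Finset.sum_mul,
      ← Finset.sum_mul, hs1, hs2]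
    ring

end Pool.CND
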